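import Pool.Agent.Helper26.CL.St
import Pool.Agent.Helper22.NL.M_Basic
import Pool.Agent.Helper22.NL.M_Edge

/-!
# Project CM (MP_65faa7), module NF1: first moment of `NF`
-/

set_option autoImplicit false

open scoped BigOperators ENNReal Topology
open Pool.LE Pool.NL Filter

namespace Pool.CN

namespace NF1M

theorem r_same {d : ℕ} (i : Fin d) (x : Zd d) : rfl' i (-1) x i = -1 - x i := by
  simp [rfl']

theorem r_ne {d : ℕ} {i j : Fin d} (h : j ≠ i) (x : Zd d) : rfl' i (-1) x j = x j := by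
  simp [rfl', h]

theorem r_r {d : ℕ} (i : Fin d) (x : Zd d) : rfl' i (-1) (rfl' i (-1) x) = x := by
  funext j
  by_cases h : j = i
  · subst h
    rw [r_same, r_same]; ring
  · rw [r_ne h, r_ne h]

/-- the reflection as a permutation -/
def Ph {d : ℕ} (i : Fin d) : Zd d ≃ Zd d := ⟨rfl' i (-1), rfl' i (-1), r_r i, r_r i⟩

theorem mem_img {d : ℕ} (B : Finset (Zd d)) (i : Fin d) (y : Zd d) :
    y ∈ B.image (rfl' i (-1)) ↔ rfl' i (-1) y ∈ B := by
  rw [Finset.mem_image]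
  constructor
  · rintro ⟨x, hx, rfl⟩
    rw [r_r]; exact hx
  · intro h
    exact ⟨_, h, r_r i y⟩

theorem r_add {d : ℕ} (i j : Fin d) (x : Zd d) :
    rfl' i (-1) (x + Pi.single j 1) = rfl' i (-1) x + (if j = i then -1 else 1 : ℤ) • Pi.single j (1 : ℤ) := by
  funext k
  by_cases hk : k = i
  · subst hk
    rw [r_same, Pi.add_apply, Pi.add_apply, r_same, Pi.smul_apply]
    by_cases hj : j = k
    · subst hj; simp; ring
    · simp [hj, Ne.symm hj]
  · rw [r_ne hk, Pi.add_apply, Pi.add_apply, r_ne hk, Pi.smul_apply]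
    by_cases hj : j = i
    · subst hj
      simp [hk]
    · simp [hj]

theorem r_sub {d : ℕ} (i j : Fin d) (x : Zd d) :
    rfl' i (-1) (x - Pi.single j 1) = rfl' i (-1) x - (if j = i then -1 else 1 : ℤ) • Pi.single j (1 : ℤ) := by
  have h := r_add i j (x - Pi.single j 1)
  rw [sub_add_cancel] at h
  rw [h, add_sub_cancel_right]

theorem nb_r (hBox : StBox) {d : ℕ} (i : Fin d) {x b : Zd d} (h : b ∈ nb x) :
    rfl' i (-1) b ∈ nb (rfl' i (-1) x) := by
  have hnb := (hBox d).2.2.1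
  rw [hnb] at h ⊢
  obtain ⟨j, h | h⟩ := h
  · refine ⟨j, ?_⟩
    rw [h, r_add]
    by_cases hj : j = i
    · right; simp [hj, sub_eq_add_neg]
    · left; simp [hj]
  · refine ⟨j, ?_⟩
    rw [h, r_sub]
    by_cases hj : j = i
    · left; simp [hj]
    · right; simp [hj]

theorem mem_mpE {V : Type} [DecidableEq V] (φ : V ≃ V) (E : Finset (Sym2 V)) (x y : V) :
    s(x, y) ∈ mpE φ E ↔ s(φ.symm x, φ.symm y) ∈ E := by
  unfold mpE
  rw [Finset.mem_map]
  constructor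
  · rintro ⟨e, he, h⟩
    induction e using Sym2.ind with
    | _ a b =>
      change s(φ a, φ b) = s(x, y) at h
      rw [Sym2.eq_iff] at h
      rcases h with ⟨rfl, rfl⟩ | ⟨rfl, rfl⟩
      · rw [φ.symm_apply_apply, φ.symm_apply_apply]; exact he
      · rw [φ.symm_apply_apply, φ.symm_apply_apply, Sym2.eq_swap]; exact he
  · intro h
    refine ⟨_, h, ?_⟩
    change s(φ (φ.symm x), φ (φ.symm y)) = s(x, y)
    rw [φ.apply_symm_apply, φ.apply_symm_apply]

theorem ES_img (hBox : StBox) {d : ℕ} (i : Fin d) (B : Finset (Zd d)) :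
    ES (B.image (rfl' i (-1))) = mpE (Ph i) (ES B) := by
  have hES := (hBox d).2.2.2.2.2.2.2.1
  ext e
  induction e using Sym2.ind with
  | _ x y =>
    rw [mem_mpE, hES, mem_img, mem_img]
    change _ ↔ s(rfl' i (-1) x, rfl' i (-1) y) ∈ ES B
    rw [hES]
    constructor
    · rintro ⟨h1, h2, h3⟩
      exact ⟨h1, h2, nb_r hBox i h3⟩
    · rintro ⟨h1, h2, h3⟩
      refine ⟨h1, h2, ?_⟩
      have := nb_r hBox i h3
      rwa [r_r, r_r] at this

/-- edges through the face -/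
noncomputable def Fe (d n : ℕ) (i : Fin d) : Finset (Sym2 (Zd d)) :=
  ((Bn d n).filter (fun x => x i = 0)).image (fun x => s(x, rfl' i (-1) x))

theorem pos (hBn : StBn) {d n : ℕ} {i : Fin d} {x : Zd d} (h : x ∈ Bn d n) : 0 ≤ x i :=
  (((hBn d n).2.2.2.1 x).1 h i).1

theorem neg (hBn : StBn) {d n : ℕ} {i : Fin d} {x : Zd d} (h : x ∈ (Bn d n).image (rfl' i (-1))) :
    x i ≤ -1 := by
  rw [mem_img] at h
  have := pos hBn (i := i) h
  rw [r_same] at this
  linarith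

theorem face_nb (hBox : StBox) {d : ℕ} {i : Fin d} {x : Zd d} (h : x i = 0) :
    rfl' i (-1) x ∈ nb x := by
  rw [(hBox d).2.2.1]
  refine ⟨i, Or.inr ?_⟩
  funext k
  by_cases hk : k = i
  · subst hk
    rw [r_same, Pi.sub_apply, h]; simp
  · rw [r_ne hk, Pi.sub_apply, Pi.single_eq_of_ne hk, sub_zero]

theorem cross (hBox : StBox) (hBn : StBn) {d n : ℕ} {i : Fin d} {x y : Zd d} (hx : x ∈ Bn d n)
    (hy : y ∈ (Bn d n).image (rfl' i (-1))) (h : y ∈ nb x) : x i = 0 ∧ y = rfl' i (-1) x := by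
  have h1 := pos hBn (i := i) hx
  have h2 := neg hBn hy
  rw [(hBox d).2.2.1] at h
  obtain ⟨j, h | h⟩ := h
  · exfalso
    rw [h, Pi.add_apply] at h2
    have : 0 ≤ (Pi.single j (1 : ℤ) : Zd d) i := by
      by_cases hj : i = j
      · subst hj; simp
      · rw [Pi.single_eq_of_ne hj]
    linarith
  · have hj : i = j := by
      by_contra hj
      rw [h, Pi.sub_apply, Pi.single_eq_of_ne hj] at h2
      linarith
    subst hj
    have h3 : x i = 0 := by
      rw [h, Pi.sub_apply, Pi.single_eq_same] at h2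
      linarith
    refine ⟨h3, ?_⟩
    rw [h]
    funext k
    by_cases hk : k = i
    · subst hk
      rw [r_same, Pi.sub_apply, h3]; simp
    · rw [r_ne hk, Pi.sub_apply, Pi.single_eq_of_ne hk, sub_zero]

theorem ES_B2 (hBox : StBox) (hBn : StBn) (d n : ℕ) (i : Fin d) :
    ES (B2 d n i) = (ES (Bn d n) ∪ ES ((Bn d n).image (rfl' i (-1)))) ∪ Fe d n i := by
  have hES := (hBox d).2.2.2.2.2.2.2.1
  have hsym := (hBox d).2.2.2.1
  ext e
  induction e using Sym2.ind with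
  | _ x y =>
    rw [Finset.mem_union, Finset.mem_union, hES, hES, hES]
    unfold B2
    rw [Finset.mem_union, Finset.mem_union]
    constructor
    · rintro ⟨hx, hy, hn⟩
      rcases hx with hx | hx <;> rcases hy with hy | hy
      · exact Or.inl (Or.inl ⟨hx, hy, hn⟩)
      · right
        obtain ⟨h1, h2⟩ := cross hBox hBn hx hy hn
        unfold Fe
        rw [Finset.mem_image]
        exact ⟨x, Finset.mem_filter.2 ⟨hx, h1⟩, by rw [← h2]⟩
      · right
        obtain ⟨h1, h2⟩ := cross hBox hBn hy hx ((hsym x y).1 hn)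
        unfold Fe
        rw [Finset.mem_image]
        exact ⟨y, Finset.mem_filter.2 ⟨hy, h1⟩, by rw [← h2, Sym2.eq_swap]⟩
      · exact Or.inl (Or.inr ⟨hx, hy, hn⟩)
    · rintro ((⟨hx, hy, hn⟩ | ⟨hx, hy, hn⟩) | h)
      · exact ⟨Or.inl hx, Or.inl hy, hn⟩
      · exact ⟨Or.inr hx, Or.inr hy, hn⟩
      · unfold Fe at h
        rw [Finset.mem_image] at h
        obtain ⟨z, hz, he⟩ := h
        rw [Finset.mem_filter] at hz
        have hz1 : rfl' i (-1) z ∈ (Bn d n).image (rfl' i (-1)) := Finset.mem_image_of_mem _ hz.1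
        rw [Sym2.eq_iff] at he
        rcases he with ⟨rfl, rfl⟩ | ⟨rfl, rfl⟩
        · exact ⟨Or.inl hz.1, Or.inr hz1, face_nb hBox hz.2⟩
        · exact ⟨Or.inr hz1, Or.inl hz.1, (hsym _ _).1 (face_nb hBox hz.2)⟩

theorem dis1 (hBox : StBox) (hBn : StBn) (d n : ℕ) (i : Fin d) :
    Disjoint (ES (Bn d n)) (ES ((Bn d n).image (rfl' i (-1)))) := by
  have hES := (hBox d).2.2.2.2.2.2.2.1
  rw [Finset.disjoint_left]
  intro e h1 h2
  induction e using Sym2.ind with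
  | _ x y =>
    rw [hES] at h1 h2
    have a1 := pos hBn (i := i) h1.1
    have a2 := neg hBn h2.1
    linarith

theorem dis2 (hBox : StBox) (hBn : StBn) (d n : ℕ) (i : Fin d) :
    Disjoint (ES (Bn d n) ∪ ES ((Bn d n).image (rfl' i (-1)))) (Fe d n i) := by
  have hES := (hBox d).2.2.2.2.2.2.2.1
  rw [Finset.disjoint_left]
  intro e h1 h2
  unfold Fe at h2
  rw [Finset.mem_image] at h2
  obtain ⟨z, hz, rfl⟩ := h2
  rw [Finset.mem_filter] at hz
  have hz1 : rfl' i (-1) z ∈ (Bn d n).image (rfl' i (-1)) := Finset.mem_image_of_mem _ hz.1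
  have a1 := pos hBn (i := i) hz.1
  have a2 := neg hBn hz1
  rw [Finset.mem_union, hES, hES] at h1
  rcases h1 with h1 | h1
  · have := pos hBn (i := i) h1.2.1
    linarith
  · have := neg hBn h1.1
    linarith

theorem ex_ind {V : Type} [DecidableEq V] (F : Finset (Sym2 V)) (p : ℝ) (e : Sym2 V) (he : e ∈ F) :
    ex F p (fun ω => ind (e ∈ ω)) = p := by
  have h := (hEdge V F p e (fun ω => ind (e ∈ ω)) he).1
  rw [h]
  have h1 : ex (F.erase e) p (fun ω => ind (e ∈ insert e ω)) = 1 := by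
    have : (fun ω : Finset (Sym2 V) => ind (e ∈ insert e ω)) = fun _ => (1 : ℝ) := by
      funext ω
      unfold ind
      rw [if_pos (Finset.mem_insert_self e ω)]
    rw [this, Basic.ex_const]
  have h2 : ex (F.erase e) p (fun ω => ind (e ∈ ω)) = 0 := by
    have : ex (F.erase e) p (fun ω => ind (e ∈ ω)) = ex (F.erase e) p (fun _ => (0 : ℝ)) := by
      unfold ex
      refine Ex_congr fun ω hω => ?_
      unfold ind
      rw [if_neg]
      intro h3
      exact (Finset.mem_erase.1 (hω h3)).1 rfl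
    rw [this, Basic.ex_const]
  rw [h1, h2]; ring

theorem Xc_img (hMp : StMp) {d : ℕ} (i : Fin d) (B : Finset (Zd d)) (ω : Finset (Sym2 (Zd d))) (x : Zd d) :
    Xc (B.image (rfl' i (-1))) (mpE (Ph i) ω) (rfl' i (-1) x) = Xc B ω x := by
  classical
  have hinj : Function.Injective (rfl' i (-1) : Zd d → Zd d) := (Ph i).injective
  unfold Xc clu
  rw [Finset.filter_image, Finset.card_image_of_injective _ hinj]
  congr 1
  apply Finset.filter_congr
  intro y _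
  exact (hMp (Zd d) (Ph i) ∅ 0).2.1 ω x y

theorem term (hMp : StMp) (hUn : StUn) (hHh : StHh) (hBox : StBox) (hBn : StBn) (d n : ℕ) (p : ℝ)
    (i : Fin d) (h0 : 0 ≤ p) (h1 : p ≤ 1) (x : Zd d) (hx : x ∈ Bn d n) (hxi : x i = 0) :
    ex (ES (B2 d n i)) p (fun ω => ind (s(x, rfl' i (-1) x) ∈ ω) *
      ((Xc (Bn d n) (ω ∩ ES (Bn d n)) x : ℝ) *
        Xc ((Bn d n).image (rfl' i (-1))) (ω ∩ ES ((Bn d n).image (rfl' i (-1)))) (rfl' i (-1) x))) =
    p * (hh (Bn d n) (ES (Bn d n)) p x) ^ 2 := by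
  have heF : s(x, rfl' i (-1) x) ∈ Fe d n i := by
    unfold Fe
    exact Finset.mem_image_of_mem _ (Finset.mem_filter.2 ⟨hx, hxi⟩)
  rw [ES_B2 hBox hBn]
  obtain ⟨E, hE⟩ : ∃ E, E = ES (Bn d n) := ⟨_, rfl⟩
  obtain ⟨E', hE'⟩ : ∃ E', E' = ES ((Bn d n).image (rfl' i (-1))) := ⟨_, rfl⟩
  obtain ⟨F, hF⟩ : ∃ F, F = Fe d n i := ⟨_, rfl⟩
  have hd1 := dis1 hBox hBn d n i
  have hd2 := dis2 hBox hBn d n i
  have hE2 : E' = mpE (Ph i) E := by rw [hE, hE']; exact ES_img hBox i _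
  rw [← hE, ← hE'] at hd1 hd2 ⊢
  rw [← hF] at hd2 heF ⊢
  have e1 : (fun ω : Finset (Sym2 (Zd d)) => ind (s(x, rfl' i (-1) x) ∈ ω) *
      ((Xc (Bn d n) (ω ∩ E) x : ℝ) * Xc ((Bn d n).image (rfl' i (-1))) (ω ∩ E') (rfl' i (-1) x))) =
      fun ω => (fun ω' : Finset (Sym2 (Zd d)) => (Xc (Bn d n) (ω' ∩ E) x : ℝ) *
        Xc ((Bn d n).image (rfl' i (-1))) (ω' ∩ E') (rfl' i (-1) x)) (ω ∩ (E ∪ E')) *
        (fun ω' : Finset (Sym2 (Zd d)) => ind (s(x, rfl' i (-1) x) ∈ ω')) (ω ∩ F) := by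
    funext ω
    have a1 : ω ∩ (E ∪ E') ∩ E = ω ∩ E := by
      rw [Finset.inter_assoc, Finset.inter_eq_right.2 Finset.subset_union_left]
    have a2 : ω ∩ (E ∪ E') ∩ E' = ω ∩ E' := by
      rw [Finset.inter_assoc, Finset.inter_eq_right.2 Finset.subset_union_right]
    have a3 : (s(x, rfl' i (-1) x) ∈ ω ∩ F) = (s(x, rfl' i (-1) x) ∈ ω) :=
      propext ⟨fun h => (Finset.mem_inter.1 h).1, fun h => Finset.mem_inter.2 ⟨h, heF⟩⟩
    change _ = ((Xc (Bn d n) (ω ∩ (E ∪ E') ∩ E) x : ℝ) *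
      Xc ((Bn d n).image (rfl' i (-1))) (ω ∩ (E ∪ E') ∩ E') (rfl' i (-1) x)) *
      ind (s(x, rfl' i (-1) x) ∈ ω ∩ F)
    rw [a1, a2, a3, mul_comm]
  rw [e1]
  have k1 := (hUn (Zd d) (E ∪ E') F p hd2 (fun _ => 0)).2
    (fun ω' : Finset (Sym2 (Zd d)) => (Xc (Bn d n) (ω' ∩ E) x : ℝ) *
        Xc ((Bn d n).image (rfl' i (-1))) (ω' ∩ E') (rfl' i (-1) x))
    (fun ω' : Finset (Sym2 (Zd d)) => ind (s(x, rfl' i (-1) x) ∈ ω'))
  refine k1.trans ?_
  rw [ex_ind F p _ heF]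
  rw [(hUn (Zd d) E E' p hd1 (fun _ => 0)).2 (fun ω => (Xc (Bn d n) ω x : ℝ))
    (fun ω => (Xc ((Bn d n).image (rfl' i (-1))) ω (rfl' i (-1) x) : ℝ))]
  have b1 : ex E p (fun ω => (Xc (Bn d n) ω x : ℝ)) = hh (Bn d n) E p x := by
    rw [hE]
    exact ((hHh (Zd d) (Bn d n) (ES (Bn d n)) (2 * d) p (hBn d n).1 h0 h1).1 x).symm
  have b2 : ex E' p (fun ω => (Xc ((Bn d n).image (rfl' i (-1))) ω (rfl' i (-1) x) : ℝ)) =
      hh (Bn d n) E p x := by
    rw [hE2, (hMp (Zd d) (Ph i) E p).1, ← b1]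
    congr 1
    funext ω
    rw [Xc_img hMp]
  rw [b1, b2]; ring

end NF1M

theorem hNF1 (hMp : StMp) (hUn : StUn) (hHh : StHh) (hBox : StBox) (hBn : StBn) : StNF1 := by
  intro d n p i h0 h1
  unfold NF
  rw [Basic.ex_sum, Finset.mul_sum]
  refine Finset.sum_congr rfl fun x hx => ?_
  rw [Finset.mem_filter] at hx
  exact NF1M.term hMp hUn hHh hBox hBn d n p i h0 h1 x hx.1 hx.2

end Pool.CN
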